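import Pool.Agent.helper40.TW.SpecG

/-!
# TWG, row SQS: the squarefree sum
-/

set_option autoImplicit false

open Complex MeasureTheory Metric
open scoped ComplexConjugate ArithmeticFunction.vonMangoldt

namespace Pool.Agent.TWG

open Pool.Agent.helper6.LD (wt)
open Pool.Agent.helper85.BVP (ex)
open Pool.Agent.TW (Win Pw)

/-- `n ↦ 1/n` -/
noncomputable def SQS_f : ℕ →* ℝ where
  toFun n := (n : ℝ)⁻¹
  map_one' := by simp
  map_mul' a b := by push_cast; rw [mul_inv]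

theorem SQS_euler (s T : Finset ℕ) (hT : ∀ m ∈ T, m ∈ Nat.factoredNumbers s) :
    ∑ m ∈ T, (m : ℝ)⁻¹ ≤ ∏ p ∈ s with p.Prime, (1 - (p : ℝ)⁻¹)⁻¹ := by
  classical
  have h := (EulerProduct.summable_and_hasSum_factoredNumbers_prod_filter_prime_geometric (f := SQS_f) (by
    intro p hp
    show ‖((p : ℝ))⁻¹‖ < 1
    rw [norm_inv, Real.norm_natCast]
    have : (1 : ℝ) < p := by exact_mod_cast hp.one_lt
    exact inv_lt_one_of_one_lt₀ this) s).2
  have h1 := sum_le_hasSum (T.subtype (fun m => m ∈ Nat.factoredNumbers s))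
    (fun i _ => (by show 0 ≤ ((i : ℕ) : ℝ)⁻¹; positivity)) h
  refine le_trans (le_of_eq ?_) h1
  have h2 := Finset.sum_subtype_of_mem (fun m : ℕ => (m : ℝ)⁻¹) hT
  rw [← h2]
  rfl

theorem SQS_tot (N : ℕ) (hN : 1 ≤ N) :
    ∏ p ∈ N.primeFactors with p.Prime, (1 - (p : ℝ)⁻¹)⁻¹ = (N : ℝ) / Nat.totient N := by
  have hf : N.primeFactors.filter (fun p => p.Prime) = N.primeFactors :=
    Finset.filter_true_of_mem fun p hp => Nat.prime_of_mem_primeFactors hp
  rw [hf, Finset.prod_inv_distrib]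
  have h1 := Nat.totient_eq_mul_prod_factors N
  have h2 : (Nat.totient N : ℝ) = N * ∏ p ∈ N.primeFactors, (1 - (p : ℝ)⁻¹) := by
    have h4 := congrArg (fun x : ℚ => (x : ℝ)) h1
    push_cast at h4
    exact h4
  have hN0 : (0 : ℝ) < N := by exact_mod_cast hN
  have hT : (0 : ℝ) < Nat.totient N := by exact_mod_cast Nat.totient_pos.2 hN
  rw [eq_div_iff hT.ne', h2]
  have h3 : ∏ p ∈ N.primeFactors, (1 - (p : ℝ)⁻¹) ≠ 0 := by
    intro h0
    rw [h0, mul_zero] at h2
    exact hT.ne' h2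
  set W := ∏ p ∈ N.primeFactors, (1 - (p : ℝ)⁻¹) with hW
  rw [mul_comm (N : ℝ) W, ← mul_assoc, inv_mul_cancel₀ h3, one_mul]

/-- the product of the primes dividing `n` but not `q` -/
def SQS_r (q n : ℕ) : ℕ := ∏ p ∈ n.primeFactors with ¬ p ∣ q, p

theorem SQS_r_dvd (q n : ℕ) : SQS_r q n ∣ n := by
  unfold SQS_r
  exact (Finset.prod_dvd_prod_of_subset _ _ _ (Finset.filter_subset _ _)).trans (Nat.prod_primeFactors_dvd n)

theorem SQS_r_sq (q n : ℕ) : Squarefree (SQS_r q n) := by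
  unfold SQS_r
  refine Finset.squarefree_prod_of_pairwise_isCoprime ?_ ?_
  · intro p hp p' hp' hne
    have h1 := Nat.prime_of_mem_primeFactors (Finset.mem_filter.1 hp).1
    have h2 := Nat.prime_of_mem_primeFactors (Finset.mem_filter.1 hp').1
    show IsRelPrime p p'
    rw [← Nat.coprime_iff_isRelPrime]
    exact (Nat.coprime_primes h1 h2).2 hne
  · intro p hp
    exact (Nat.prime_of_mem_primeFactors (Finset.mem_filter.1 hp).1).prime.squarefree

theorem SQS_r_cop (q n : ℕ) : Nat.Coprime q (SQS_r q n) := by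
  unfold SQS_r
  refine Nat.Coprime.prod_right fun p hp => ?_
  obtain ⟨h1, h2⟩ := Finset.mem_filter.1 hp
  exact ((Nat.prime_of_mem_primeFactors h1).coprime_iff_not_dvd.2 h2).symm

theorem SQS_r_fac (q n : ℕ) (hq : 1 ≤ q) (hn : 1 ≤ n) :
    n / SQS_r q n ∈ Nat.factoredNumbers (q * SQS_r q n).primeFactors := by
  rw [Nat.mem_factoredNumbers']
  intro p hp hpd
  have hr0 : SQS_r q n ≠ 0 := (SQS_r_sq q n).ne_zero
  have hpn : p ∣ n := hpd.trans (Nat.div_dvd_of_dvd (SQS_r_dvd q n))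
  rw [Nat.mem_primeFactors]
  refine ⟨hp, ?_, mul_ne_zero (by omega) hr0⟩
  by_cases h : p ∣ q
  · exact h.mul_right _
  · refine Dvd.dvd.mul_left ?_ _
    unfold SQS_r
    refine Finset.dvd_prod_of_mem (fun p => p) (Finset.mem_filter.2 ⟨?_, h⟩)
    exact Nat.mem_primeFactors.2 ⟨hp, hpn, by omega⟩

theorem SQS : SQS_stmt := by
  classical
  intro q y hq hy
  set R : Finset ℕ := (Finset.Icc 1 y).filter (fun r => Squarefree r ∧ Nat.Coprime q r) with hR
  have hlog : Real.log y ≤ ∑ n ∈ Finset.Icc 1 y, (n : ℝ)⁻¹ := by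
    have h1 := log_add_one_le_harmonic y
    rw [harmonic_eq_sum_Icc] at h1
    push_cast at h1
    refine le_trans ?_ h1
    refine Real.log_le_log (by exact_mod_cast hy) (by linarith)
  refine hlog.trans ?_
  have hmaps : ∀ n ∈ Finset.Icc 1 y, SQS_r q n ∈ R := by
    intro n hn
    rw [Finset.mem_Icc] at hn
    rw [hR, Finset.mem_filter, Finset.mem_Icc]
    have h0 : 0 < SQS_r q n := Nat.pos_of_ne_zero (SQS_r_sq q n).ne_zero
    exact ⟨⟨h0, (Nat.le_of_dvd hn.1 (SQS_r_dvd q n)).trans hn.2⟩, SQS_r_sq q n, SQS_r_cop q n⟩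
  rw [← Finset.sum_fiberwise_of_maps_to hmaps, Finset.mul_sum]
  refine Finset.sum_le_sum fun r hr => ?_
  obtain ⟨hr1, hr2, hr3⟩ := Finset.mem_filter.1 hr
  have hr0 : 0 < r := (Finset.mem_Icc.1 hr1).1
  have hr0' : (0 : ℝ) < r := by exact_mod_cast hr0
  set F : Finset ℕ := (Finset.Icc 1 y).filter (fun n => SQS_r q n = r) with hF
  have h1 : ∑ n ∈ F, (n : ℝ)⁻¹ = (r : ℝ)⁻¹ * ∑ m ∈ F.image (fun n => n / r), (m : ℝ)⁻¹ := by
    rw [Finset.sum_image, Finset.mul_sum]
    · refine Finset.sum_congr rfl fun n hn => ?_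
      have hd : r ∣ n := by
        rw [← (Finset.mem_filter.1 hn).2]
        exact SQS_r_dvd q n
      obtain ⟨m, rfl⟩ := hd
      rw [Nat.mul_div_cancel_left m hr0]
      push_cast
      rw [mul_inv]
    · intro n hn n' hn' h
      have hd : r ∣ n := by
        rw [← (Finset.mem_filter.1 hn).2]
        exact SQS_r_dvd q n
      have hd' : r ∣ n' := by
        rw [← (Finset.mem_filter.1 hn').2]
        exact SQS_r_dvd q n'
      simp only at h
      rw [← Nat.mul_div_cancel' hd, ← Nat.mul_div_cancel' hd', h]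
  rw [h1]
  have h2 : ∑ m ∈ F.image (fun n => n / r), (m : ℝ)⁻¹ ≤ ((q * r : ℕ) : ℝ) / Nat.totient (q * r) := by
    rw [← SQS_tot (q * r) (Nat.mul_pos hq hr0)]
    refine SQS_euler _ _ ?_
    intro m hm
    obtain ⟨n, hn, rfl⟩ := Finset.mem_image.1 hm
    obtain ⟨hn1, hn2⟩ := Finset.mem_filter.1 hn
    rw [← hn2]
    exact SQS_r_fac q n hq (Finset.mem_Icc.1 hn1).1
  refine (mul_le_mul_of_nonneg_left h2 (by positivity)).trans (le_of_eq ?_)
  rw [Nat.totient_mul hr3]
  have hq0 : (0 : ℝ) < Nat.totient q := by exact_mod_cast Nat.totient_pos.2 hq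
  have ht0 : (0 : ℝ) < Nat.totient r := by exact_mod_cast Nat.totient_pos.2 hr0
  push_cast
  field_simp

end Pool.Agent.TWG
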